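import Pool.Agent.Run7.h460.QD.CubeP
import Pool.Agent.Results.MP_8e0b0b_nt.CubicTwistsCriterion

/-!
# An algorithm which finds `C_A(ℚ)` inside arbitrary dense sets of inputs, after almost all twists

`C_A : X³ + Y³ = A`. There is a computable predicate `g` with the following properties.

* If `g |A|` holds then all rational points of `C_A` lie on the diagonal, so that `C_A(ℚ) = {O}`, or
  `A = 2 m³` and `C_A(ℚ) = {O, (m, m)}`: generators of `C_A(ℚ)` and the number `r(A)` are known.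
* Let `S` be an arbitrary (perhaps not computable) set of members of the family of the squarefree numbers
  `D` prime to `3`, not `±1` modulo `9`, with exactly one prime factor `≡ 2` modulo `3`, of upper density at
  least `δ` in this family. Let `T` be a finite set of multipliers (cube-free numbers all of whose prime
  factors are `1` modulo `9`) and `V ⊆ T`. For all but at most `4 |T|² / ε²` multipliers `m` the inputs
  `D ∈ S` such that for all `t ∈ T` the algorithm succeeds for `D m t` exactly if `t ∈ V` have upper density at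
  least `δ c^|V| (1 - c)^(|T| - |V|) - ε`, `c = ∏_{i ≥ 1} (1 - 3^{-i}) = 0.5601...`. In particular (`V = T`)
  the algorithm finds the groups `C_{D m t}(ℚ)` for all `t ∈ T` at the same time for a proportion of at
  least `c^|T| - ε / δ` of the inputs. The number of exceptional `m` does not depend on `S`.
* Every infinite set of multipliers contains a sequence `m_0, m_1, ...` along which every behaviour of the
  algorithm for the inputs `D ∏_{i ∈ J} m_i` (`J` a nonempty subset of `{0, ..., n - 1}`) occurs for a set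
  of `D ∈ S` of positive upper density, if `S` has positive upper density.
* If `S` is the whole family, the proportion is exactly `c^|V| (1 - c)^(|T| - |V|)`.

The algorithm and the case `S =` the family, `T = {1}` are in the starting file `CubicTwistsCriterion`
(helper486, helper419 and others); the joint law of finitely many twists, `D` prime to the multipliers, is
the starting project R432/JG. The passage to dense sets is the second moment method, after helper428.
The ranks and the L-functions for the same families: `MP_6073f3_nt/DenseSetsOfTwists`.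
-/

set_option autoImplicit false

open scoped Classical
open Filter Topology

namespace Pool.Agent.Results.MP_8e0b0b_nt.DenseSetsOfInputs

/-- The family: `D` is squarefree, prime to `3`, not `±1` modulo `9`, and has exactly one prime factor
congruent to `2` modulo `3`. -/
def Family (D : ℕ) : Prop :=
  Squarefree D ∧ ¬ 3 ∣ D ∧ D % 9 ≠ 1 ∧ D % 9 ≠ 8 ∧
    ∃ q : ℕ, q.Prime ∧ q % 3 = 2 ∧ q ∣ D ∧ ∀ p : ℕ, p.Prime → p ∣ D → p ≠ q → p % 3 = 1

/-- The multipliers: cube-free numbers all of whose prime factors are `1` modulo `9`. -/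
def IsMultiplier (m : ℕ) : Prop :=
  m ≠ 0 ∧ (∀ p : ℕ, p.Prime → ¬ p ^ 3 ∣ m) ∧ ∀ p : ℕ, p.Prime → p ∣ m → p % 9 = 1

/-- The number of the `D ≤ X` of the family that belong to `S`. -/
noncomputable def count (S : Set ℕ) (X : ℕ) : ℕ :=
  ((Finset.Icc 1 X).filter fun D => Family D ∧ D ∈ S).card

/-- The upper density of `S` in the family is at least `δ`. -/
def UpperDensity (S : Set ℕ) (δ : ℝ) : Prop :=
  ∀ ε : ℝ, 0 < ε → ∃ᶠ X : ℕ in atTop, (δ - ε) * (count Set.univ X : ℝ) ≤ (count S X : ℝ)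

/-- `c = ∏_{i ≥ 1} (1 - 3^{-i})`. -/
noncomputable def c : ℝ := ∏' i : ℕ, (1 - (1 / 3 : ℝ) ^ (i + 1))

section proof

open Run7.h460.JL.Mix (cn UD)
open Run7.h460.QD (Large)
open Run7.h460.QD.Q (SC cf IsMult IsNine cn_card cn_univ card_tendsto cls_cf cf_spec cf_mul_cube
  cf_of_free)
open Pool.Agent.R432.JG (Cl cl_iff)
open Pool.Agent.Y703.CT (Cls)
open Pool.Agent.Results.MP_8e0b0b_nt.CubicTwistsCriterion (Good Class class_iff)

theorem fam_iff (D : ℕ) : Family D ↔ Cl ∅ D := by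
  rw [cl_iff]
  unfold Family
  simp

theorem empty_ok : ∀ q ∈ (∅ : Finset ℕ), q.Prime ∧ q % 9 = 1 := fun q hq =>
  absurd hq (Finset.notMem_empty q)

theorem count_eq (A : Set ℕ) (X : ℕ) : (count A X : ℝ) = cn (SC ∅ X) A :=
  (cn_card fam_iff A X).symm

theorem count_univ (X : ℕ) : (count Set.univ X : ℝ) = ((SC ∅ X).card : ℝ) :=
  (count_eq _ _).trans (cn_univ X)

theorem ud_iff (A : Set ℕ) (δ : ℝ) : UpperDensity A δ ↔ UD (SC ∅) A δ := by
  unfold UpperDensity UD
  simp only [count_eq, cn_univ]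

theorem good_iff {D n : ℕ} (hD : Family D) (hn : IsNine n) :
    Good (D * n) ↔ Pool.Agent.Y703.CT.NoSplit (cf (D * n)) := by
  have hC := cls_cf ((fam_iff D).1 hD) hn
  have hn0 : D * n ≠ 0 := mul_ne_zero hD.1.ne_zero hn.1
  constructor
  · rintro ⟨D₁, n₁, h1, h2, h3, h4⟩
    rw [h1, cf_mul_cube h3.1 h2, cf_of_free h3.1 h3.2.1]
    exact h4
  · intro h
    obtain ⟨r, hr, h1⟩ := cf_spec hn0
    exact ⟨cf (D * n), r, h1, hr.ne', (class_iff _).2 hC, h⟩

end proof

open Run7.h460.QD.Q (SC cf IsMult IsNine)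

/-- **Main theorem.** -/
theorem result : ∃ g : ℕ → Prop,
    -- `g` is computable and correct
    ComputablePred g ∧
    (∀ A : ℤ, g A.natAbs → ∀ X Y : ℚ, X ^ 3 + Y ^ 3 = A → X = Y ∧ (A : ℚ) = 2 * X ^ 3) ∧
    (0.56 : ℝ) < c ∧ Tendsto (fun X => count Set.univ X) atTop atTop ∧
    -- the behaviour on dense sets of inputs
    (∀ (S : Set ℕ) (δ : ℝ), UpperDensity S δ →
      ∀ (T V : Finset ℕ), (∀ t ∈ T, IsMultiplier t) → V ⊆ T → ∀ ε : ℝ, 0 < ε →
      ∀ F : Finset ℕ, (∀ m ∈ F, IsMultiplier m) → 4 * (T.card : ℝ) ^ 2 / ε ^ 2 < F.card →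
      ∃ m ∈ F, UpperDensity {D | D ∈ S ∧ ∀ t ∈ T, (g (D * (m * t)) ↔ t ∈ V)}
        (δ * (c ^ V.card * (1 - c) ^ (T.card - V.card)) - ε)) ∧
    -- the behaviour along a sequence of multipliers
    (∀ S : Set ℕ, (∃ δ : ℝ, 0 < δ ∧ UpperDensity S δ) →
      ∀ M : Set ℕ, M.Infinite → (∀ m ∈ M, IsMultiplier m) →
      ∃ m : ℕ → ℕ, Function.Injective m ∧ (∀ i, m i ∈ M) ∧
        ∀ (n : ℕ) (Z : Finset (Finset ℕ)), ∃ δ : ℝ, 0 < δ ∧
          UpperDensity {D | D ∈ S ∧ ∀ J ⊆ Finset.range n, J.Nonempty →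
            (g (D * ∏ i ∈ J, m i) ↔ J ∈ Z)} δ) ∧
    -- the whole family
    ∀ (T V : Finset ℕ), (∀ t ∈ T, IsMultiplier t) → V ⊆ T →
      Tendsto (fun X => (count {D | ∀ t ∈ T, (g (D * t) ↔ t ∈ V)} X : ℝ) /
        (count Set.univ X : ℝ)) atTop (𝓝 (c ^ V.card * (1 - c) ^ (T.card - V.card))) := by
  obtain ⟨k1, k2, -⟩ := Pool.Agent.Results.MP_8e0b0b_nt.CubicTwistsCriterion.result
  refine ⟨Pool.Agent.Results.MP_8e0b0b_nt.CubicTwistsCriterion.Good, k1, k2,
    Pool.Agent.R432.JG.c3_gt, ?_, ?_, ?_, ?_⟩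
  · rw [← tendsto_natCast_atTop_iff (R := ℝ)]
    refine (Run7.h460.QD.Q.card_tendsto empty_ok).congr fun X => ?_
    rw [count_univ]
  · intro A δ hA T V hT hV ε hε F hF hc
    obtain ⟨m, hm, h⟩ := Run7.h460.QD.Q.mix_nat empty_ok hT hV ((ud_iff A δ).1 hA) hε hF hc
    refine ⟨m, hm, (ud_iff _ _).2 ?_⟩
    have e : δ * (c ^ V.card * (1 - c) ^ (T.card - V.card)) - ε =
        Pool.Agent.Y703.CX.c3 ^ V.card * (1 - Pool.Agent.Y703.CX.c3) ^ (T.card - V.card) * δ - ε := by
      show δ * (c ^ V.card * (1 - c) ^ (T.card - V.card)) - ε =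
        c ^ V.card * (1 - c) ^ (T.card - V.card) * δ - ε
      ring
    rw [e]
    refine Run7.h460.QD.Q.UD.congr' h fun X D hD hDA => ⟨hDA.1, fun t ht => ?_⟩
    rw [← hDA.2 t ht]
    exact good_iff ((fam_iff D).2 (Run7.h460.QD.Q.mem_SC hD))
      ((Run7.h460.QD.Q.IsMult.nine (hF m hm)).mul (Run7.h460.QD.Q.IsMult.nine (hT t ht)))
  · rintro A ⟨δ, hδ, hA⟩ M hM hMm
    obtain ⟨u, h1, h2, h3⟩ := Run7.h460.QD.Q.sub_nat empty_ok hM hMm ⟨δ, hδ, (ud_iff A δ).1 hA⟩
    refine ⟨u, h1, h2, fun n Z => ?_⟩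
    obtain ⟨δ', h4, h5⟩ := h3 n Z
    refine ⟨δ', h4, (ud_iff _ _).2 (Run7.h460.QD.Q.UD.congr' h5 fun X D hD hDA =>
      ⟨hDA.1, fun S hS hne => ?_⟩)⟩
    rw [← hDA.2 S hS hne]
    refine good_iff ((fam_iff D).2 (Run7.h460.QD.Q.mem_SC hD)) ?_
    clear hDA hne hS
    induction S using Finset.induction_on with
    | empty =>
      rw [Finset.prod_empty]
      exact ⟨one_ne_zero, fun p hp hd => absurd (Nat.dvd_one.1 hd) hp.one_lt.ne'⟩
    | insert a s ha ih =>
      rw [Finset.prod_insert ha]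
      exact (Run7.h460.QD.Q.IsMult.nine (hMm _ (h2 a))).mul ih
  · intro T V hT hV
    have h := Run7.h460.QD.Q.law_nat empty_ok hT hV
    refine h.congr fun X => ?_
    rw [count_eq, count_univ]
    congr 1
    refine Run7.h460.QD.Q.cn_congr fun D hD => ?_
    show (∀ t ∈ T, _) ↔ ∀ t ∈ T, _
    refine forall₂_congr fun t ht => ?_
    rw [good_iff ((fam_iff D).2 (Run7.h460.QD.Q.mem_SC hD)) (Run7.h460.QD.Q.IsMult.nine (hT t ht))]

end Pool.Agent.Results.MP_8e0b0b_nt.DenseSetsOfInputs
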